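import Pool.Agent.TH892.FullBox4

/-!
# Quantitative Hypothesis H for almost all polynomials, for all lengths between `H ^ ε` and `H / (log H) ^ B`

For almost all polynomials `f` of degree `j` with coefficients at most `H` in absolute value the asymptotic formula for
the number of `n ≤ K` with `|f(n)|` prime holds, with a relative error `(log H)^(-U)`, simultaneously for ALL lengths `K`
with `H ^ ε ≤ K ≤ H / (log H) ^ B`.

Proof (`Pool/Agent/H300R2`, `Pool/Agent/TH892/FullBox`, starting files): the variance of the primes over the values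
`f(n)`, with the mean taken over the constant term and the leading coefficient, the other coefficients being fixed:
circle method over the differences `f(n) - f(m)`, zeros of L-functions in short intervals; then a geometric grid of
lengths.
-/

set_option autoImplicit false

namespace Pool.Agent.Results.MP_51e72e_nt.AlmostAllPolynomials

open Finset Polynomial

/-- the polynomial `c_0 + c_1 X + ... + c_j X ^ j` -/
noncomputable def poly {j : ℕ} (c : Fin (j + 1) → ℤ) : ℤ[X] := ∑ i : Fin (j + 1), C (c i) * X ^ (i : ℕ)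

/-- all vectors of coefficients with `|c_i| ≤ H` for `i < j` and `1 ≤ c_j ≤ H` -/
noncomputable def box (j H : ℕ) : Finset (Fin (j + 1) → ℤ) :=
  Fintype.piFinset (fun i => if (i : ℕ) = j then Icc 1 (H : ℤ) else Icc (-(H : ℤ)) H)

/-- `ω_f(p)`: the number of residue classes modulo `p` in which `f` vanishes modulo `p` -/
noncomputable def omega (f : ℤ[X]) (p : ℕ) : ℕ :=
  ((range p).filter (fun k : ℕ => (p : ℤ) ∣ f.eval (k : ℤ))).card

/-- the Euler product `∏_{p ≤ z} (1 - ω_f(p) / p) / (1 - 1 / p)` of `C_f`, cut at `z` -/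
noncomputable def eulerProd (z : ℕ) (f : ℤ[X]) : ℝ :=
  ∏ p ∈ (Icc 1 z).filter Nat.Prime, (1 - (omega f p : ℝ) / p) / (1 - 1 / (p : ℝ))

/-- `π_f(K)`: the number of `1 ≤ n ≤ K` with `|f(n)|` prime -/
noncomputable def primeCount (f : ℤ[X]) (K : ℕ) : ℝ :=
  (((Icc 1 K).filter (fun n : ℕ => (f.eval (n : ℤ)).natAbs.Prime)).card : ℝ)

/-- `∑ 1 / log |f(n)|` over `1 ≤ n ≤ K` with `|f(n)| ≥ 2` -/
noncomputable def logSum (f : ℤ[X]) (K : ℕ) : ℝ :=
  ∑ n ∈ (Icc 1 K).filter (fun n : ℕ => 2 ≤ |f.eval (n : ℤ)|), 1 / Real.log |((f.eval (n : ℤ) : ℤ) : ℝ)|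

/-- no prime `p ≤ z` divides all values of `f` -/
def NoFixedPrime (z : ℕ) (f : ℤ[X]) : Prop := ∀ p : ℕ, p.Prime → p ≤ z → ∃ n : ℤ, ¬ (p : ℤ) ∣ f.eval n

open Classical in
/-- the number of the polynomials of the box without fixed prime divisor `p ≤ z` for which the formula
`|π_f(K) - eulerProd z f * logSum f K| ≤ (log H) ^ (-U) * eulerProd z f * logSum f K` fails for at least one `K` with
`H ^ ε ≤ K ≤ H / (log H) ^ B` -/
noncomputable def exceptions (j : ℕ) (ε : ℝ) (U B z H : ℕ) : ℕ :=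
  ((box j H).filter (fun c => NoFixedPrime z (poly c) ∧
    ¬ ∀ K : ℕ, (H : ℝ) ^ ε ≤ K → (K : ℝ) * Real.log H ^ B ≤ H →
      |primeCount (poly c) K - eulerProd z (poly c) * logSum (poly c) K| ≤
        eulerProd z (poly c) * logSum (poly c) K / Real.log H ^ U)).card

/-- **Schinzel's asymptotic formula for almost all polynomials.** Let `j ≥ 1`, `ε > 0` and `U` be given, let `E` be
large in terms of these, and let `B` and `H` be large in terms of these and `E`. Put `z = ⌊(log H)^E⌋`. Then all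
polynomials `f` of degree `j` and height at most `H` without fixed prime divisor `p ≤ z`, with at most
`(number of all polynomials) / (log H) ^ U` exceptions, satisfy
`π_f(K) = (1 + θ (log H)^(-U)) eulerProd z f * logSum f K`, `|θ| ≤ 1`, for ALL `K` with `H ^ ε ≤ K ≤ H / (log H) ^ B`. -/
theorem result (j : ℕ) (hj : 1 ≤ j) (ε : ℝ) (hε : 0 < ε) (U : ℕ) : ∃ E₁ : ℕ, ∀ E : ℕ, E₁ ≤ E →
    ∃ B H₀ : ℕ, ∀ H : ℕ, H₀ ≤ H →
      (exceptions j ε U B ⌊Real.log H ^ E⌋₊ H : ℝ) ≤ (box j H).card / Real.log H ^ U := by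
  classical
  obtain ⟨E2, h2⟩ := Pool.Agent.TH892.exc_box j hj ε hε U
  refine ⟨E2, fun E hE => ?_⟩
  obtain ⟨B2, x2, g2⟩ := h2 E hE
  refine ⟨B2, x2, fun H hH => ?_⟩
  refine le_trans ?_ (g2 H hH (fun c => NoFixedPrime ⌊Real.log H ^ E⌋₊ (poly c) ∧
      ¬ ∀ K : ℕ, (H : ℝ) ^ ε ≤ K → (K : ℝ) * Real.log H ^ B2 ≤ H →
      |primeCount (poly c) K - eulerProd ⌊Real.log H ^ E⌋₊ (poly c) * logSum (poly c) K| ≤
        eulerProd ⌊Real.log H ^ E⌋₊ (poly c) * logSum (poly c) K / Real.log H ^ U) ?_)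
  · exact le_of_eq rfl
  · rintro c - ⟨hn, hf⟩
    refine ⟨fun p hp hpz => (Pool.Agent.H300R2.BH.rho_ne_iff _ p hp).mpr (hn p hp hpz), ?_⟩
    push Not at hf
    obtain ⟨K, hK1, hK2, hK3⟩ := hf
    exact ⟨K, hK1, hK2, hK3⟩

end Pool.Agent.Results.MP_51e72e_nt.AlmostAllPolynomials
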