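import Mathlib
import Pool.Agent.U53.BH.Omega
import Pool.Agent.U53.BH.Growth

set_option autoImplicit false

/-!
# The error term of the Bateman-Horn formula for EVERY irreducible polynomial

Let `f` be an irreducible nonconstant polynomial with integer coefficients. For `k = 1` the conjecture of the
problem is `π_f(x) = (C_f + o(1)) x / log |f(x)|`. In every interval `[x, x + Y]` there is a window `(a, b]` of
length `≫_f log Y log log Y` without any `n` for which `|f(n)|` is a prime, and for at least half of the integers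
`N` of the window the difference of `π_f(N)` and `C N / log |f(N)|` (or `C ∑_{n ≤ N} 1 / log |f(n)|`, or any
comparison function which increases at least like `κ / log n`) is `≫_f C (log Y / log x) log log Y`. The same window
serves all comparison functions and all sets `S` of arguments `n` at once.
-/

namespace Pool.Agent.Results.MP_51e72e_nt.ErrorTermEveryPolynomial

open Polynomial Finset

/-- the number of the `n ∈ S` with `1 ≤ n ≤ N` for which `|f(n)|` is a prime -/
noncomputable def primeCount (f : ℤ[X]) (S : Set ℕ) (N : ℕ) : ℕ :=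
  Set.ncard {n : ℕ | 1 ≤ n ∧ n ≤ N ∧ n ∈ S ∧ (f.eval (n : ℤ)).natAbs.Prime}

/-- the set of the integers `N` with `a < N ≤ b` for which `primeCount f S N` differs from `G N` by at least
`T` -/
def large (f : ℤ[X]) (S : Set ℕ) (G : ℕ → ℝ) (a b : ℕ) (T : ℝ) : Set ℕ :=
  {N : ℕ | a < N ∧ N ≤ b ∧ T ≤ |(primeCount f S N : ℝ) - G N|}

lemma primeCount_eq (f : ℤ[X]) (S : Set ℕ) (N : ℕ) : primeCount f S N = Pool.Agent.U53.BH.P f S N := by
  classical
  unfold primeCount Pool.Agent.U53.BH.P
  rw [← Set.ncard_coe_finset]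
  congr 1
  ext n
  simp only [coe_filter, mem_Icc, Set.mem_ofPred_eq, and_assoc]

open Classical in
lemma large_ncard (f : ℤ[X]) (S : Set ℕ) (G : ℕ → ℝ) (a b : ℕ) (T : ℝ) : (large f S G a b T).ncard =
    ((Ioc a b).filter (fun N : ℕ => T ≤ |(Pool.Agent.U53.BH.P f S N : ℝ) - G N|)).card := by
  rw [← Set.ncard_coe_finset]
  unfold large
  congr 1
  ext n
  simp only [coe_filter, mem_Ioc, Set.mem_ofPred_eq, and_assoc, primeCount_eq]

lemma large_mono (f : ℤ[X]) (S : Set ℕ) (G : ℕ → ℝ) (a b : ℕ) {T T' : ℝ} (h : T ≤ T') :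
    ((large f S G a b T').ncard : ℝ) ≤ (large f S G a b T).ncard := by
  have hfin : (large f S G a b T).Finite :=
    (Set.finite_Iic b).subset fun n hn => hn.2.1
  have : (large f S G a b T').ncard ≤ (large f S G a b T).ncard :=
    Set.ncard_le_ncard (fun n hn => ⟨hn.1, hn.2.1, h.trans hn.2.2⟩) hfin
  exact_mod_cast this

/-- **The error term of the Bateman-Horn formula for one polynomial.** -/
theorem result (f : ℤ[X]) (hf : Irreducible f) (hd : 0 < f.natDegree) :
    ∃ c : ℝ, 0 < c ∧ ∃ Y₀ : ℝ, ∀ (Y : ℝ) (x : ℕ), Y₀ ≤ Y → Y ≤ x →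
    ∃ a b : ℕ, x ≤ a ∧ (b : ℝ) ≤ x + Y ∧ c * Real.log Y * Real.log (Real.log Y) ≤ (b : ℝ) - a ∧
      (∀ n : ℕ, a < n → n ≤ b → ¬ (f.eval (n : ℤ)).natAbs.Prime) ∧
      -- every comparison function which increases at least like `κ / log n` in the window
      (∀ (S : Set ℕ) (κ : ℝ) (G : ℕ → ℝ), 0 ≤ κ →
        (∀ n : ℕ, a ≤ n → n < b → κ / Real.log (n + 1) ≤ G (n + 1) - G n) →
        ((b : ℝ) - a) / 2 ≤
          (large f S G a b (c * κ * (Real.log Y / Real.log x) * Real.log (Real.log Y))).ncard) ∧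
      -- the main term `C N / log |f(N)|` of the question
      (∀ (S : Set ℕ) (C : ℝ), 0 ≤ C →
        ((b : ℝ) - a) / 2 ≤
          (large f S (fun N : ℕ => C * (N / Real.log |((f.eval (N : ℤ) : ℤ) : ℝ)|)) a b
            (c * C * (Real.log Y / Real.log x) * Real.log (Real.log Y))).ncard) ∧
      -- the main term `C ∑_{n ≤ N} 1 / log |f(n)|`
      (∀ (S : Set ℕ) (C : ℝ), 0 ≤ C →
        ((b : ℝ) - a) / 2 ≤
          (large f S (fun N : ℕ => C * ∑ n ∈ Icc 1 N, 1 / Real.log |((f.eval (n : ℤ) : ℤ) : ℝ)|) a b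
            (c * C * (Real.log Y / Real.log x) * Real.log (Real.log Y))).ncard) := by
  classical
  obtain ⟨c₁, hc₁, Y₁, hY₁, h⟩ := Pool.Agent.U53.BH.window f hf hd
  obtain ⟨κ₀, hκ₀, n₀, hn₀, hinc⟩ := Pool.Agent.U53.BH.increments f hd
  set μ : ℝ := min 1 κ₀ with hμ
  have hμ0 : 0 < μ := lt_min one_pos hκ₀
  have hμ1 : μ ≤ 1 := min_le_left _ _
  have hμκ : μ ≤ κ₀ := min_le_right _ _
  refine ⟨c₁ * μ, by positivity, max Y₁ n₀, fun Y x hY hYx => ?_⟩
  have hYY1 : Y₁ ≤ Y := (le_max_left _ _).trans hY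
  have hY3 : (3 : ℝ) ≤ Y := hY₁.trans hYY1
  have hxn : n₀ ≤ x := by
    have : (n₀ : ℝ) ≤ x := ((le_max_right _ _).trans hY).trans hYx
    exact_mod_cast this
  have hlogY : 1 < Real.log Y := by
    rw [Real.lt_log_iff_exp_lt (by linarith)]
    linarith [Real.exp_one_lt_d9]
  have hllY : 0 < Real.log (Real.log Y) := Real.log_pos hlogY
  have hlx : 0 < Real.log x := Real.log_pos (by linarith)
  obtain ⟨a, b, hxa, hbx, hab, hno, hwin⟩ := h Y x hYY1 hYx
  have hL : 0 ≤ c₁ * Real.log Y * Real.log (Real.log Y) := by positivity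
  have hT : 0 ≤ c₁ * (Real.log Y / Real.log x) * Real.log (Real.log Y) := by positivity
  -- the comparison functions
  have hgen : ∀ (S : Set ℕ) (κ : ℝ) (G : ℕ → ℝ), 0 ≤ κ →
        (∀ n : ℕ, a ≤ n → n < b → κ / Real.log (n + 1) ≤ G (n + 1) - G n) →
        ((b : ℝ) - a) / 2 ≤
          (large f S G a b (c₁ * κ * (Real.log Y / Real.log x) * Real.log (Real.log Y))).ncard := by
    intro S κ G hκ hG
    rw [large_ncard]
    exact hwin S κ G hκ hG
  have hbase : ∀ (S : Set ℕ) (C : ℝ) (G : ℕ → ℝ), 0 ≤ C →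
        (∀ n : ℕ, a ≤ n → n < b → C * κ₀ / Real.log (n + 1) ≤ G (n + 1) - G n) →
        ((b : ℝ) - a) / 2 ≤
          (large f S G a b (c₁ * μ * C * (Real.log Y / Real.log x) * Real.log (Real.log Y))).ncard := by
    intro S C G hC hG
    refine (hgen S (C * κ₀) G (by positivity) hG).trans (large_mono f S G a b ?_)
    have e1 : c₁ * μ * C * (Real.log Y / Real.log x) * Real.log (Real.log Y) =
        (c₁ * (Real.log Y / Real.log x) * Real.log (Real.log Y)) * C * μ := by ring
    have e2 : c₁ * (C * κ₀) * (Real.log Y / Real.log x) * Real.log (Real.log Y) =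
        (c₁ * (Real.log Y / Real.log x) * Real.log (Real.log Y)) * C * κ₀ := by ring
    rw [e1, e2]
    exact mul_le_mul_of_nonneg_left hμκ (mul_nonneg hT hC)
  refine ⟨a, b, hxa, hbx, ?_, hno, ?_, ?_, ?_⟩
  · have : c₁ * μ * Real.log Y * Real.log (Real.log Y) ≤ c₁ * Real.log Y * Real.log (Real.log Y) := by
      have e1 : c₁ * μ * Real.log Y * Real.log (Real.log Y) =
        (c₁ * Real.log Y * Real.log (Real.log Y)) * μ := by ring
      rw [e1]
      exact mul_le_of_le_one_right hL hμ1
    linarith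
  · intro S κ G hκ hG
    refine (hgen S κ G hκ hG).trans (large_mono f S G a b ?_)
    have e1 : c₁ * μ * κ * (Real.log Y / Real.log x) * Real.log (Real.log Y) =
        (c₁ * (Real.log Y / Real.log x) * Real.log (Real.log Y)) * κ * μ := by ring
    have e2 : c₁ * κ * (Real.log Y / Real.log x) * Real.log (Real.log Y) =
        (c₁ * (Real.log Y / Real.log x) * Real.log (Real.log Y)) * κ := by ring
    rw [e1, e2]
    exact mul_le_of_le_one_right (mul_nonneg hT hκ) hμ1
  · intro S C hC
    apply hbase S C _ hC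
    intro n hn1 _
    have h1 := (hinc n (by omega)).2
    have h2 := mul_le_mul_of_nonneg_left h1 hC
    unfold Pool.Agent.U53.BH.logAbs at h2
    rw [mul_div_assoc, ← mul_sub]
    exact h2
  · intro S C hC
    apply hbase S C _ hC
    intro n hn1 _
    have h1 := (hinc n (by omega)).1
    have h2 := mul_le_mul_of_nonneg_left h1 hC
    unfold Pool.Agent.U53.BH.logAbs at h2
    rw [mul_div_assoc, ← mul_sub, sum_Icc_succ_top (by omega : 1 ≤ n + 1), add_sub_cancel_left]
    exact h2

end Pool.Agent.Results.MP_51e72e_nt.ErrorTermEveryPolynomial
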