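import Pool.Agent.U497.UT.Fin

/-!
# Szemerédi's theorem relative to the prime values of every system of polynomials, uniformly

Let `f_1, ..., f_k` be ANY nonconstant polynomials with integral coefficients, without fixed prime divisor, of degree at most `d`
and with coefficients at most `H ^ C` in absolute value, and let `(Y, Y + H]` be ANY interval with `Y ≤ H ^ C`; so the
length of the interval is allowed to be an arbitrarily small power of the coefficients and of its endpoints. Let `𝔖` be the
product of Bateman and Horn over the primes up to `H`. In EVERY set `S` of integers `n` of the interval for which all the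
`|f_i(n)|` are primes, all elements with the exception of at most `κ 𝔖 H / (log H) ^ k` are terms of `l`-term
arithmetic progressions contained in `S` whose common difference is at most `(log H) ^ B`; if `S` has at least
`κ 𝔖 H / (log H) ^ k` elements, then for one `q ≤ (log H) ^ B` there are at least `H / (log H) ^ B` such progressions with
common difference `q`. So, if a set of polynomials has prime values in the order of magnitude of the conjecture, then nearly all
of them are in long narrow progressions of prime values, in a way which is uniform in the polynomials and in the interval. The same holds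
if the `|f_i(n)|` are only required to be primes or free of prime factors up to `H ^ δ`, and for suitable
`δ > 0` the number of the `n` of the interval for which all `f_i(n)` are free of prime factors up to `H ^ δ` is at least
`c 𝔖 H / (log H) ^ k`.

New (`Pool/Agent/U497/UT`): the theorem of Szemerédi relative to sifted sets of the starting files needs that `F(n)` and
`F(n + h)`, `F = ∏ f_i`, have few common prime factors for EVERY `h ≤ (log H) ^ B`. This fails for many polynomials with large
coefficients. Here the differences `h` for which it fails are shown to be few (moments over `h` of the common prime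
factors of medium size, by the Chinese remainder theorem; resultants of `F(X)` and `F(X + h)` for the large ones), and they are
avoided by passing to a suitable modulus and removing the bad primes from `F(n)`.
-/

set_option autoImplicit false

namespace Pool.Agent.Results.MP_51e72e_nt.EverySystem

open Finset Polynomial

/-- `f_1, ..., f_k` are nonconstant polynomials of degree at most `d`, their coefficients are at most `T` in absolute value, and
they have no fixed prime divisor. -/
structure Admissible (k d T : ℕ) (f : Fin k → ℤ[X]) : Prop where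
  nonconstant : ∀ i, 1 ≤ (f i).natDegree
  degree : ∀ i, (f i).natDegree ≤ d
  height : ∀ i j, |(f i).coeff j| ≤ T
  locally : ∀ p : ℕ, p.Prime → ∃ n : ℤ, ∀ i, ¬ (p : ℤ) ∣ (f i).eval n

/-- The number of the classes `n` modulo `p` for which `p` divides some `f_i(n)`. -/
def omega {k : ℕ} (f : Fin k → ℤ[X]) (p : ℕ) : ℕ :=
  ((range p).filter (fun n : ℕ => ∃ i, (p : ℤ) ∣ (f i).eval (n : ℤ))).card

/-- The product of Bateman and Horn over the primes `p ≤ z`. -/
noncomputable def series {k : ℕ} (f : Fin k → ℤ[X]) (z : ℕ) : ℝ :=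
  ∏ p ∈ (Icc 1 z).filter Nat.Prime, (1 - (omega f p : ℝ) / p) / (1 - 1 / (p : ℝ)) ^ k

/-- `m` has no prime factor `p ≤ w`. -/
def Rough (w : ℝ) (m : ℤ) : Prop := ∀ p : ℕ, p.Prime → (p : ℝ) ≤ w → ¬ (p : ℤ) ∣ m

/-- The `n` with `Y < n ≤ Y + H` for which all `f_i(n)` have no prime factor `p ≤ w`. -/
def roughArguments {k : ℕ} (f : Fin k → ℤ[X]) (w : ℝ) (Y H : ℕ) : Set ℕ :=
  {n : ℕ | Y < n ∧ n ≤ Y + H ∧ ∀ i, Rough w ((f i).eval (n : ℤ))}

/-- The `n` with `Y < n ≤ Y + H` for which every `|f_i(n)|` is a prime or has no prime factor `p ≤ w`. -/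
def arguments {k : ℕ} (f : Fin k → ℤ[X]) (w : ℝ) (Y H : ℕ) : Set ℕ :=
  {n : ℕ | Y < n ∧ n ≤ Y + H ∧ ∀ i, ((f i).eval (n : ℤ)).natAbs.Prime ∨ Rough w ((f i).eval (n : ℤ))}

/-- `n` is a term of an arithmetic progression with `l` terms, contained in `S`, with common difference at most `D`. -/
def InProgression (S : Set ℕ) (l : ℕ) (D : ℝ) (n : ℕ) : Prop :=
  ∃ a q : ℕ, 1 ≤ q ∧ (q : ℝ) ≤ D ∧ (∀ i < l, a + i * q ∈ S) ∧ ∃ i < l, n = a + i * q

lemma Admissible.psys {k d H C : ℕ} {f : Fin k → ℤ[X]} (h : Admissible k d (H ^ C) f) :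
    Pool.Agent.U497.UT.PSys k d ((H : ℤ) ^ C) f := by
  refine ⟨h.nonconstant, h.degree, fun i j => (h.height i j).trans (le_of_eq ?_), h.locally⟩
  push_cast
  rfl

/-- **Theorem.** -/
theorem result (k d C : ℕ) (hk : 1 ≤ k) :
    (∃ δ c : ℝ, 0 < δ ∧ 0 < c ∧ ∃ H₀ : ℕ, ∀ H : ℕ, H₀ ≤ H → ∀ f : Fin k → ℤ[X], Admissible k d (H ^ C) f → ∀ Y : ℕ,
      c * (series f H * H / Real.log H ^ k) ≤ ((roughArguments f ((H : ℝ) ^ δ) Y H).ncard : ℝ)) ∧
    ∀ (l : ℕ) (δ κ : ℝ), 2 ≤ l → 0 < δ → 0 < κ → ∃ B H₀ : ℕ, ∀ H : ℕ, H₀ ≤ H →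
      ∀ f : Fin k → ℤ[X], Admissible k d (H ^ C) f → ∀ Y : ℕ, Y ≤ H ^ C → ∀ S ⊆ arguments f ((H : ℝ) ^ δ) Y H,
        (Set.ncard {n : ℕ | n ∈ S ∧ ¬ InProgression S l (Real.log H ^ B) n} : ℝ) ≤
          κ * (series f H * H / Real.log H ^ k) ∧
        (κ * (series f H * H / Real.log H ^ k) ≤ (S.ncard : ℝ) →
          ∃ q : ℕ, 1 ≤ q ∧ (q : ℝ) ≤ Real.log H ^ B ∧
            H / Real.log H ^ B ≤ (Set.ncard {a : ℕ | ∀ i < l, a + i * q ∈ S} : ℝ)) := by
  constructor
  · obtain ⟨δ, c, hδ, hc, H₀, h1⟩ := Pool.Agent.U497.UT.lowF k d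
    refine ⟨δ, c, hδ, hc, H₀, fun H hH f hf Y => ?_⟩
    exact h1 H hH _ f hf.psys Y
  · intro l δ κ hl hδ hκ
    obtain ⟨B, H₀, h1⟩ := Pool.Agent.U497.UT.sysF k d C l δ κ hk hl hδ hκ
    refine ⟨B, H₀, fun H hH f hf Y hY S hS => ?_⟩
    have hfin : S.Finite := (Finset.finite_toSet (Ioc Y (Y + H))).subset fun n hn => by
      have h2 := hS hn
      exact mem_coe.2 (mem_Ioc.2 ⟨h2.1, h2.2.1⟩)
    obtain ⟨T, rfl⟩ : ∃ T : Finset ℕ, S = (T : Set ℕ) := ⟨hfin.toFinset, hfin.coe_toFinset.symm⟩
    have h2 := h1 H hH f hf.psys Y hY T (fun n hn => by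
      have h3 := hS (mem_coe.2 hn)
      exact mem_Ioc.2 ⟨h3.1, h3.2.1⟩) (fun n hn i => (hS (mem_coe.2 hn)).2.2 i)
    rw [Set.ncard_coe_finset]
    exact h2

end Pool.Agent.Results.MP_51e72e_nt.EverySystem
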