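import Pool.Agent.U497.AW.Sys

/-!
# Dense sets of prime or almost prime values of EVERY system of polynomials, in all short intervals

Let `f_1, ..., f_k` be ANY nonconstant polynomials of degree at most `d` with integral coefficients (of any size) without
fixed prime divisor, and let `(Y, Y + H]` be ANY interval (the endpoint `Y` is arbitrary too). Let `u = 𝔖 / (log H) ^ k`, where `𝔖`
is the product of Bateman and Horn over the primes up to `H`; so `u` is the expected density of the `n` for which all `|f_i(n)|` are primes,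
if these are of size `H ^ O(1)`. Let `S` be EVERY set of integers `n` of the interval for which each `|f_i(n)|` is a prime or
free of prime factors up to `H ^ δ`, with at least `κ u H` elements.

(1) For at least `c H` of the integers `n` of the interval, ALL intervals `(n, n + L]` with `1 ≤ c u L`, `L ≤ H` simultaneously, that is
those of all lengths from the average distance up to `H`, contain at least `c u L` elements of `S`. Here `c > 0`
depends only on `k, d, δ, κ`.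

(2) If the coefficients and `Y` are at most `H ^ C`, then, for every `l`, the same is true if only the elements of `S` are
counted which are terms of `l`-term arithmetic progressions contained in `S` with common difference at most
`(log H) ^ B`; `c` does not depend on `l` and `C`.

(3) For suitable `δ > 0` the set of ALL `n` of the interval for which the `f_i(n)` have no prime factor up to `H ^ δ` has the
property (1), for all polynomials and all intervals.

Proof (`Pool/Agent/U497/AW`). An upper bound sieve for the `n` such that `F(n)` and `F(n + h)`, `F = ∏ f_i`, have no small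
prime factors, with the singular series `exp(∑ c_h(p) / p)` of the pair, `c_h(p)` the number of the classes `r` with
`p ∣ F(r)`, `p ∣ F(r + h)`. The sum of this series over the `h ≤ D` is `O(D + 1 / V)`, `V` the sieve product, for all functions `F`
with periodic divisibility: the primes `p ≤ D` by Jensen's inequality with the weights `1 / (p log p)`, the primes `p > D` by
convexity and the bound `∑_h c_h(p) ≤ ρ(p)²`. No resultants, thus no condition on the coefficients. So `S` has a large subset with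
a bounded number of elements in each interval of length `1 / V`, and a covering argument (`Pool/Agent/U28/PG`, rising sun lemma) gives
all scales.
-/

set_option autoImplicit false

namespace Pool.Agent.Results.MP_51e72e_nt.InAllShortIntervals

open Finset Polynomial

/-- `f_1, ..., f_k` are nonconstant polynomials of degree at most `d` without fixed prime divisor. -/
structure Admissible (k d : ℕ) (f : Fin k → ℤ[X]) : Prop where
  nonconstant : ∀ i, 1 ≤ (f i).natDegree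
  degree : ∀ i, (f i).natDegree ≤ d
  locally : ∀ p : ℕ, p.Prime → ∃ n : ℤ, ∀ i, ¬ (p : ℤ) ∣ (f i).eval n

/-- The number of the classes `n` modulo `p` for which `p` divides some `f_i(n)`. -/
def omega {k : ℕ} (f : Fin k → ℤ[X]) (p : ℕ) : ℕ :=
  ((range p).filter (fun n : ℕ => ∃ i, (p : ℤ) ∣ (f i).eval (n : ℤ))).card

/-- The product of Bateman and Horn over the primes `p ≤ z`. -/
noncomputable def series {k : ℕ} (f : Fin k → ℤ[X]) (z : ℕ) : ℝ :=
  ∏ p ∈ (Icc 1 z).filter Nat.Prime, (1 - (omega f p : ℝ) / p) / (1 - 1 / (p : ℝ)) ^ k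

/-- The expected density. -/
noncomputable def density {k : ℕ} (f : Fin k → ℤ[X]) (H : ℕ) : ℝ := series f H / Real.log H ^ k

/-- `m` has no prime factor `p ≤ w`. -/
def Rough (w : ℝ) (m : ℤ) : Prop := ∀ p : ℕ, p.Prime → (p : ℝ) ≤ w → ¬ (p : ℤ) ∣ m

/-- The `n` with `Y < n ≤ Y + H` for which all `f_i(n)` have no prime factor `p ≤ w`. -/
def roughArguments {k : ℕ} (f : Fin k → ℤ[X]) (w : ℝ) (Y H : ℕ) : Set ℕ :=
  {n : ℕ | Y < n ∧ n ≤ Y + H ∧ ∀ i, Rough w ((f i).eval (n : ℤ))}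

/-- The `n` with `Y < n ≤ Y + H` for which every `|f_i(n)|` is a prime or has no prime factor `p ≤ w`. -/
def arguments {k : ℕ} (f : Fin k → ℤ[X]) (w : ℝ) (Y H : ℕ) : Set ℕ :=
  {n : ℕ | Y < n ∧ n ≤ Y + H ∧ ∀ i, ((f i).eval (n : ℤ)).natAbs.Prime ∨ Rough w ((f i).eval (n : ℤ))}

/-- `n` is a term of an arithmetic progression with `l` terms, contained in `S`, with common difference at most `D`. -/
def InProgression (S : Set ℕ) (l : ℕ) (D : ℝ) (n : ℕ) : Prop :=
  ∃ a q : ℕ, 1 ≤ q ∧ (q : ℝ) ≤ D ∧ (∀ i < l, a + i * q ∈ S) ∧ ∃ i < l, n = a + i * q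

/-- The number of the elements of `S` in `(n, n + L]`. -/
noncomputable def countIn (S : Set ℕ) (n L : ℕ) : ℕ := Set.ncard {x : ℕ | x ∈ S ∧ n < x ∧ x ≤ n + L}

/-- The `n` with `Y < n ≤ Y + H` such that for ALL `L ≤ H` with `1 ≤ c u L` the interval `(n, n + L]` contains at least
`c u L` elements of `S`. -/
def richPoints (S : Set ℕ) (c u : ℝ) (Y H : ℕ) : Set ℕ :=
  {n : ℕ | Y < n ∧ n ≤ Y + H ∧ ∀ L : ℕ, L ≤ H → 1 ≤ c * (u * L) → c * (u * L) ≤ (countIn S n L : ℝ)}

lemma Admissible.psys {k d : ℕ} {f : Fin k → ℤ[X]} (h : Admissible k d f) :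
    ∃ T : ℤ, Pool.Agent.U497.UT.PSys k d T f := by
  refine ⟨∑ i, ∑ j ∈ range (d + 1), |(f i).coeff j|, h.nonconstant, h.degree, fun i j => ?_, h.locally⟩
  have h0 : ∀ i, 0 ≤ ∑ j ∈ range (d + 1), |(f i).coeff j| := fun i => sum_nonneg fun _ _ => abs_nonneg _
  refine le_trans ?_ (single_le_sum (f := fun i => ∑ j ∈ range (d + 1), |(f i).coeff j|) (fun i _ => h0 i) (mem_univ i))
  by_cases hj : j ≤ d
  · exact single_le_sum (f := fun j => |(f i).coeff j|) (fun _ _ => abs_nonneg _) (mem_range.2 (Nat.lt_succ_of_le hj))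
  · rw [coeff_eq_zero_of_natDegree_lt (lt_of_le_of_lt (h.degree i) (not_le.1 hj)), abs_zero]
    exact h0 i

lemma finite_of {S : Set ℕ} {Y H : ℕ} (h : ∀ n ∈ S, Y < n ∧ n ≤ Y + H) : ∃ T : Finset ℕ, S = (T : Set ℕ) ∧ T ⊆ Ioc Y (Y + H) := by
  have hfin : S.Finite := (Finset.finite_toSet (Ioc Y (Y + H))).subset fun n hn => mem_coe.2 (mem_Ioc.2 (h n hn))
  refine ⟨hfin.toFinset, hfin.coe_toFinset.symm, fun n hn => mem_Ioc.2 (h n (hfin.mem_toFinset.1 hn))⟩

open Classical in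
lemma rich_eq (T : Finset ℕ) (c u : ℝ) (Y H : ℕ) : ((richPoints (T : Set ℕ) c u Y H).ncard : ℝ) =
    (((Ioc Y (Y + H)).filter (fun n : ℕ => ∀ L : ℕ, 1 ≤ c * (u * L) → L ≤ H →
      c * (u * L) ≤ ((T.filter (fun x => x ∈ Ioc n (n + L))).card : ℝ))).card : ℝ) := by
  have h1 : ∀ n L : ℕ, countIn (T : Set ℕ) n L = (T.filter (fun x => x ∈ Ioc n (n + L))).card := by
    intro n L
    rw [countIn, ← Set.ncard_coe_finset]
    congr 1
    ext x
    rw [mem_coe, mem_filter, mem_Ioc]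
    rfl
  rw [← Set.ncard_coe_finset]
  congr 2
  ext n
  rw [mem_coe, mem_filter, mem_Ioc, richPoints, Set.mem_ofPred_eq]
  simp only [h1]
  constructor
  · rintro ⟨h2, h3, h4⟩
    exact ⟨⟨h2, h3⟩, fun L hL1 hL2 => h4 L hL2 hL1⟩
  · rintro ⟨⟨h2, h3⟩, h4⟩
    exact ⟨h2, h3, fun L hL1 hL2 => h4 L hL2 hL1⟩

/-- **Theorem.** -/
theorem result (k d : ℕ) (hk : 1 ≤ k) :
    (∀ δ κ : ℝ, 0 < δ → 0 < κ → ∃ c : ℝ, 0 < c ∧
      (∃ H₀ : ℕ, ∀ H : ℕ, H₀ ≤ H → ∀ f : Fin k → ℤ[X], Admissible k d f → ∀ Y : ℕ, ∀ S ⊆ arguments f ((H : ℝ) ^ δ) Y H,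
        κ * (density f H * H) ≤ (S.ncard : ℝ) → c * H ≤ ((richPoints S c (density f H) Y H).ncard : ℝ)) ∧
      ∀ C l : ℕ, 2 ≤ l → ∃ B H₀ : ℕ, ∀ H : ℕ, H₀ ≤ H → ∀ f : Fin k → ℤ[X], Admissible k d f →
        (∀ i j, |(f i).coeff j| ≤ (H : ℤ) ^ C) → ∀ Y : ℕ, Y ≤ H ^ C → ∀ S ⊆ arguments f ((H : ℝ) ^ δ) Y H,
        κ * (density f H * H) ≤ (S.ncard : ℝ) →
        c * H ≤ ((richPoints {n : ℕ | n ∈ S ∧ InProgression S l (Real.log H ^ B) n} c (density f H) Y H).ncard : ℝ)) ∧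
    ∃ δ c : ℝ, 0 < δ ∧ 0 < c ∧ ∃ H₀ : ℕ, ∀ H : ℕ, H₀ ≤ H → ∀ f : Fin k → ℤ[X], Admissible k d f → ∀ Y : ℕ,
      c * H ≤ ((richPoints (roughArguments f ((H : ℝ) ^ δ) Y H) c (density f H) Y H).ncard : ℝ) := by
  classical
  have hser : ∀ (f : Fin k → ℤ[X]) (H : ℕ) (x : ℝ), density f H * x = Pool.Agent.U497.UT.ser f H * x / Real.log H ^ k := by
    intro f H x
    have : density f H = Pool.Agent.U497.UT.ser f H / Real.log H ^ k := rfl
    rw [this]
    ring
  have hA : ∀ δ κ : ℝ, 0 < δ → 0 < κ → ∃ c : ℝ, 0 < c ∧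
      (∃ H₀ : ℕ, ∀ H : ℕ, H₀ ≤ H → ∀ f : Fin k → ℤ[X], Admissible k d f → ∀ Y : ℕ, ∀ S ⊆ arguments f ((H : ℝ) ^ δ) Y H,
        κ * (density f H * H) ≤ (S.ncard : ℝ) → c * H ≤ ((richPoints S c (density f H) Y H).ncard : ℝ)) ∧
      ∀ C l : ℕ, 2 ≤ l → ∃ B H₀ : ℕ, ∀ H : ℕ, H₀ ≤ H → ∀ f : Fin k → ℤ[X], Admissible k d f →
        (∀ i j, |(f i).coeff j| ≤ (H : ℤ) ^ C) → ∀ Y : ℕ, Y ≤ H ^ C → ∀ S ⊆ arguments f ((H : ℝ) ^ δ) Y H,
        κ * (density f H * H) ≤ (S.ncard : ℝ) →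
        c * H ≤ ((richPoints {n : ℕ | n ∈ S ∧ InProgression S l (Real.log H ^ B) n} c (density f H) Y H).ncard : ℝ) := by
    intro δ κ hδ hκ
    obtain ⟨c, hc, ⟨H₀, h1⟩, h2⟩ := Pool.Agent.U497.AW.sysA k d δ κ hk hδ hκ
    refine ⟨c, hc, ⟨H₀, fun H hH f hf Y S hS hSc => ?_⟩, fun C l hl => ?_⟩
    · obtain ⟨T, rfl, hT⟩ := finite_of (S := S) (Y := Y) (H := H) (fun n hn => ⟨(hS hn).1, (hS hn).2.1⟩)
      obtain ⟨A, hA⟩ := hf.psys
      rw [Set.ncard_coe_finset, hser] at hSc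
      have h2 := h1 H hH A f hA Y T hT (fun n hn i => (hS (mem_coe.2 hn)).2.2 i) hSc
      rw [rich_eq]
      simp only [hser]
      exact h2
    · obtain ⟨B, H₁, h3⟩ := h2 C l hl
      refine ⟨B, H₁, fun H hH f hf hcoef Y hY S hS hSc => ?_⟩
      obtain ⟨T, rfl, hT⟩ := finite_of (S := S) (Y := Y) (H := H) (fun n hn => ⟨(hS hn).1, (hS hn).2.1⟩)
      rw [Set.ncard_coe_finset, hser] at hSc
      have h4 := h3 H hH f ⟨hf.nonconstant, hf.degree, hcoef, hf.locally⟩ Y hY T hT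
        (fun n hn i => (hS (mem_coe.2 hn)).2.2 i) hSc
      have h5 : {n : ℕ | n ∈ (T : Set ℕ) ∧ InProgression (T : Set ℕ) l (Real.log H ^ B) n} =
          ((T.filter (fun x => Pool.Agent.U497.SP.InP T l (Real.log H ^ B) x) : Finset ℕ) : Set ℕ) := by
        ext x
        rw [mem_coe, mem_filter]
        rfl
      rw [h5, rich_eq]
      simp only [hser, filter_filter]
      exact h4
  refine ⟨hA, ?_⟩
  obtain ⟨δ, c₁, hδ, hc₁, H₁, h1⟩ := Pool.Agent.U497.UT.lowF k d
  obtain ⟨c, hc, ⟨H₂, h2⟩, -⟩ := hA δ c₁ hδ hc₁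
  refine ⟨δ, c, hδ, hc, max H₁ H₂, fun H hH f hf Y => ?_⟩
  obtain ⟨A, hA'⟩ := hf.psys
  apply h2 H ((le_max_right _ _).trans hH) f hf Y
  · intro n hn
    exact ⟨hn.1, hn.2.1, fun i => Or.inr (hn.2.2 i)⟩
  · rw [hser]
    exact h1 H ((le_max_left _ _).trans hH) A f hA' Y

end Pool.Agent.Results.MP_51e72e_nt.InAllShortIntervals
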